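import Mathlib

namespace Pool.Agent.Results.MP_5b7a98_an.Compact

open MeasureTheory Filter Topology Set
open scoped ENNReal

/-- `A` is `μ`-compact: for every compact `K ⊆ A`, the set of Borel probability measures on `A`
with barycentre in `K` is compact in the weak topology. -/
def MuCompact {E : Type} [NormedAddCommGroup E] [NormedSpace ℝ E] (A : Set E) : Prop :=
  letI : MeasurableSpace A := borel A
  haveI : BorelSpace A := ⟨rfl⟩
  ∀ K ⊆ A, IsCompact K →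
    IsCompact {μ : ProbabilityMeasure A | ∫ x, (x : E) ∂(μ : Measure A) ∈ K}

/-- Every `μ`-compact closed bounded convex subset of `E` is norm-compact. -/
def Rigid (E : Type) [NormedAddCommGroup E] [NormedSpace ℝ E] : Prop :=
  ∀ A : Set E, IsClosed A → Bornology.IsBounded A → Convex ℝ A → MuCompact A → IsCompact A

def UC (E : Type) [NormedAddCommGroup E] [NormedSpace ℝ E] (p : ℝ) : Prop :=
  ∀ η > 0, ∃ C ≥ 0, ∀ x y : E, ‖x - y‖ ^ p ≤ η * (‖x‖ ^ p + ‖y‖ ^ p) +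
    C * ((‖x‖ ^ p + ‖y‖ ^ p) / 2 - ‖(1 / 2 : ℝ) • (x + y)‖ ^ p)

lemma scal {p : ℝ} (hp : 1 < p) : UC ℝ p := by
  intro η hη
  have hp0 : 0 < p := by linarith
  set D : ℝ × ℝ → ℝ := fun z => (‖z.1‖ ^ p + ‖z.2‖ ^ p) / 2 - ‖(1 / 2 : ℝ) • (z.1 + z.2)‖ ^ p
    with hD
  have tri : ∀ a b : ℝ, ‖(1 / 2 : ℝ) • (a + b)‖ ^ p ≤ ((1 / 2 : ℝ) • ‖a‖ + (1 / 2 : ℝ) • ‖b‖) ^ p := by
    intro a b
    apply Real.rpow_le_rpow (norm_nonneg _) _ hp0.le
    rw [norm_smul, smul_eq_mul, smul_eq_mul, ← mul_add]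
    simpa using norm_add_le a b
  have D0 : ∀ z, 0 ≤ D z := fun z => by
    have := (convexOn_rpow hp.le).2 (norm_nonneg z.1) (norm_nonneg z.2)
      (show (0 : ℝ) ≤ 1 / 2 by norm_num) (show (0 : ℝ) ≤ 1 / 2 by norm_num) (by norm_num)
    have := tri z.1 z.2
    simp only [hD, smul_eq_mul] at *
    linarith
  have D1 : ∀ z : ℝ × ℝ, z.1 ≠ z.2 → 0 < D z := fun z hz => by
    by_cases h : ‖z.1‖ = ‖z.2‖
    · have h2 : z.1 = -z.2 := (abs_eq_abs.1 h).resolve_left hz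
      have h3 : z.2 ≠ 0 := fun h0 => hz (by rw [h2, h0, neg_zero])
      have := Real.rpow_pos_of_pos (norm_pos_iff.2 h3) p
      simp only [hD, h2, neg_add_cancel, smul_zero, norm_zero, Real.zero_rpow hp0.ne', norm_neg]
      linarith
    · have := (strictConvexOn_rpow hp).2 (norm_nonneg z.1) (norm_nonneg z.2) h
        (show (0 : ℝ) < 1 / 2 by norm_num) (show (0 : ℝ) < 1 / 2 by norm_num) (by norm_num)
      have := tri z.1 z.2
      simp only [hD, smul_eq_mul] at *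
      linarith
  have hc : Continuous D := by
    have : Continuous fun t : ℝ => t ^ p := Real.continuous_rpow_const hp0.le
    simp only [hD]
    fun_prop (disch := exact hp0.le)
  have hS : IsCompact (Metric.sphere (0 : ℝ × ℝ) 1 ∩ {z | η ≤ ‖z.1 - z.2‖ ^ p}) :=
    (isCompact_sphere _ _).inter_right (isClosed_le continuous_const (by
      fun_prop (disch := exact hp0.le)))
  obtain ⟨c, hc0, hc1⟩ : ∃ c > 0, ∀ z ∈ Metric.sphere (0 : ℝ × ℝ) 1 ∩ {z | η ≤ ‖z.1 - z.2‖ ^ p},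
      c ≤ D z := by
    refine hS.exists_forall_le' hc.continuousOn fun z hz => D1 z fun h => ?_
    have := hz.2
    simp only [mem_ofPred_eq, h, sub_self, norm_zero, Real.zero_rpow hp0.ne'] at this
    linarith
  have h2 : (0 : ℝ) < 2 ^ p := by positivity
  have unit : ∀ z ∈ Metric.sphere (0 : ℝ × ℝ) 1,
      ‖z.1 - z.2‖ ^ p ≤ η * (‖z.1‖ ^ p + ‖z.2‖ ^ p) + 2 ^ p / c * D z := by
    intro z hz
    have hz' : max ‖z.1‖ ‖z.2‖ = 1 := by simpa [Prod.norm_def] using hz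
    have a1 := Real.rpow_nonneg (norm_nonneg z.1) p
    have a2 := Real.rpow_nonneg (norm_nonneg z.2) p
    by_cases h : η ≤ ‖z.1 - z.2‖ ^ p
    · have b1 : ‖z.1 - z.2‖ ^ p ≤ 2 ^ p := Real.rpow_le_rpow (norm_nonneg _) (by
        linarith [norm_sub_le z.1 z.2, le_max_left ‖z.1‖ ‖z.2‖, le_max_right ‖z.1‖ ‖z.2‖]) hp0.le
      have b2 := mul_le_mul_of_nonneg_left (hc1 z ⟨hz, h⟩) (div_pos h2 hc0).le
      rw [div_mul_cancel₀ _ hc0.ne'] at b2
      nlinarith
    · have b1 : 1 ≤ ‖z.1‖ ^ p + ‖z.2‖ ^ p := by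
        rcases max_eq_iff.1 hz' with h | h <;> rw [h.1, Real.one_rpow] <;> linarith
      nlinarith [mul_nonneg (div_pos h2 hc0).le (D0 z)]
  refine ⟨2 ^ p / c, by positivity, fun x y => ?_⟩
  by_cases h0 : ((x, y) : ℝ × ℝ) = 0
  · obtain ⟨rfl, rfl⟩ := Prod.mk_eq_zero.1 h0
    simp [Real.zero_rpow hp0.ne']
  · have hr : 0 < ‖((x, y) : ℝ × ℝ)‖ := norm_pos_iff.2 h0
    set r := ‖((x, y) : ℝ × ℝ)‖
    have := unit (r⁻¹ • (x, y)) (by
      rw [mem_sphere_zero_iff_norm, norm_smul, norm_inv, norm_norm, inv_mul_cancel₀ hr.ne'])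
    have e : ∀ t : ℝ, ‖r⁻¹ • t‖ ^ p = r⁻¹ ^ p * ‖t‖ ^ p := fun t => by
      rw [norm_smul, Real.mul_rpow (norm_nonneg _) (norm_nonneg _), Real.norm_of_nonneg (by positivity)]
    simp only [hD, Prod.smul_fst, Prod.smul_snd, ← smul_sub, ← smul_add, smul_comm (1 / 2 : ℝ) r⁻¹,
      e] at this
    have hr' : 0 < r⁻¹ ^ p := by positivity
    apply le_of_mul_le_mul_left _ hr'
    linarith

lemma uc_lp (p : ℝ≥0∞) [Fact (1 ≤ p)] (h : 1 < p.toReal) :
    UC (lp (fun _ : ℕ => ℝ) p) p.toReal := by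
  intro η hη
  obtain ⟨C, hC, H⟩ := scal h η hη
  refine ⟨C, hC, fun x y => ?_⟩
  have hp : 0 < p.toReal := by linarith
  have a := (lp.hasSum_norm hp x).add (lp.hasSum_norm hp y)
  exact hasSum_le (fun i => H (x i) (y i)) (lp.hasSum_norm hp (x - y))
    ((a.mul_left η).add (((a.div_const 2).sub (lp.hasSum_norm hp ((1 / 2 : ℝ) • (x + y)))).mul_left C))

lemma uc_Lp (p : ℝ≥0∞) [Fact (1 ≤ p)] (h : 1 < p.toReal) (hp' : p ≠ ⊤) (m : Measure ℝ) :
    UC (Lp ℝ p m) p.toReal := by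
  intro η hη
  obtain ⟨C, hC, H⟩ := scal h η hη
  refine ⟨C, hC, fun x y => ?_⟩
  have hp : 0 < p.toReal := by linarith
  have hp0 : p ≠ 0 := (zero_lt_one.trans_le Fact.out).ne'
  have n : ∀ f : Lp ℝ p m, ‖f‖ ^ p.toReal = ∫ t, ‖f t‖ ^ p.toReal ∂m := fun f => by
    have h0 : 0 ≤ ∫ t, ‖f t‖ ^ p.toReal ∂m := integral_nonneg fun t => by positivity
    rw [Lp.norm_def, (Lp.memLp f).eLpNorm_eq_integral_rpow_norm hp0 hp',
      ENNReal.toReal_ofReal (by positivity), Real.rpow_inv_rpow h0 hp.ne']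
  have i : ∀ f : Lp ℝ p m, Integrable (fun t => ‖f t‖ ^ p.toReal) m := fun f =>
    (Lp.memLp f).integrable_norm_rpow hp0 hp'
  have a : Integrable (fun t => ‖x t‖ ^ p.toReal + ‖y t‖ ^ p.toReal) m := (i x).add (i y)
  have b : Integrable (fun t => (‖x t‖ ^ p.toReal + ‖y t‖ ^ p.toReal) / 2 -
      ‖((1 / 2 : ℝ) • (x + y)) t‖ ^ p.toReal) m := (a.div_const 2).sub (i _)
  simp only [n]
  rw [← integral_add (i x) (i y), ← integral_div, ← integral_sub (a.div_const 2) (i _),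
    ← integral_const_mul, ← integral_const_mul,
    ← integral_add (a.const_mul η) (b.const_mul C)]
  refine integral_mono_ae (i _) ((a.const_mul η).add (b.const_mul C)) ?_
  filter_upwards [Lp.coeFn_sub x y, Lp.coeFn_smul (1 / 2 : ℝ) (x + y), Lp.coeFn_add x y]
    with t h1 h2 h3
  rw [h1, h2, Pi.smul_apply, h3]
  exact H (x t) (y t)

lemma mazur {E : Type} [NormedAddCommGroup E] [NormedSpace ℝ E] [CompleteSpace E] {p : ℝ}
    (hp : 0 < p) (hU : UC E p) (S : ℕ → Set E) (hS : Antitone S) (hc : ∀ n, Convex ℝ (S n))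
    (hne : ∀ n, (S n).Nonempty) (hb : Bornology.IsBounded (S 0)) :
    ∃ (y : ℕ → E) (a : E), (∀ n, y n ∈ S n) ∧ Tendsto y atTop (𝓝 a) := by
  obtain ⟨R, hR⟩ := hb.exists_norm_le
  have hRp : ∀ n, ∀ z ∈ S n, ‖z‖ ^ p ≤ R ^ p := fun n z hz =>
    Real.rpow_le_rpow (norm_nonneg _) (hR z (hS (Nat.zero_le n) hz)) hp.le
  set d : ℕ → ℝ := fun n => sInf ((fun z => ‖z‖ ^ p) '' S n) with hd
  have bb : ∀ n, BddBelow ((fun z => ‖z‖ ^ p) '' S n) := fun n =>
    ⟨0, by rintro _ ⟨z, -, rfl⟩; positivity⟩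
  have d1 : ∀ n, ∀ z ∈ S n, d n ≤ ‖z‖ ^ p := fun n z hz => csInf_le (bb n) ⟨z, hz, rfl⟩
  have d2 : ∀ n, ∃ z ∈ S n, ‖z‖ ^ p < d n + 1 / (n + 1) := fun n => by
    obtain ⟨_, ⟨z, hz, rfl⟩, h⟩ := exists_lt_of_csInf_lt ((hne n).image fun z => ‖z‖ ^ p)
      (lt_add_of_pos_right _ (Nat.one_div_pos_of_nat (n := n)))
    exact ⟨z, hz, h⟩
  choose y hy hy' using d2
  have dm : Monotone d := fun a b h =>
    csInf_le_csInf (bb a) ((hne b).image _) (image_mono (hS h))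
  have db : BddAbove (range d) := ⟨R ^ p, by
    rintro _ ⟨n, rfl⟩; exact (d1 n _ (hy n)).trans (hRp n _ (hy n))⟩
  have dt : Tendsto (fun n : ℕ => (⨆ i, d i) + 1 / ((n : ℝ) + 1) - d n) atTop (𝓝 0) := by
    simpa using (tendsto_one_div_add_atTop_nhds_zero_nat.const_add (⨆ i, d i)).sub
      (tendsto_atTop_ciSup dm db)
  have hR0 : 0 ≤ R ^ p := (Real.rpow_nonneg (norm_nonneg _) p).trans (hRp 0 _ (hy 0))
  have : CauchySeq y := by
    rw [Metric.cauchySeq_iff']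
    intro ε hε
    have hε' : 0 < ε ^ p := by positivity
    obtain ⟨C, hC, H⟩ := hU (ε ^ p / (4 * (R ^ p + 1))) (by positivity)
    have := dt.const_mul C
    rw [mul_zero] at this
    obtain ⟨N, hN⟩ := (this.eventually (gt_mem_nhds (half_pos hε'))).exists
    refine ⟨N, fun n hn => ?_⟩
    rw [dist_eq_norm]
    rw [← Real.rpow_lt_rpow_iff (norm_nonneg _) hε.le hp]
    refine (H _ _).trans_lt ?_
    have m : (1 / 2 : ℝ) • (y n + y N) ∈ S N := by
      rw [smul_add]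
      exact hc N (hS hn (hy n)) (hy N) (by norm_num) (by norm_num) (by norm_num)
    have a1 := d1 N _ m
    have a2 : 1 / ((n : ℝ) + 1) ≤ 1 / (N + 1) := Nat.one_div_le_one_div hn
    have a3 := le_ciSup db n
    have a4 := le_ciSup db N
    have a5 : ε ^ p / (4 * (R ^ p + 1)) * (‖y n‖ ^ p + ‖y N‖ ^ p) ≤ ε ^ p / 2 := by
      rw [div_mul_eq_mul_div, div_le_div_iff₀ (by positivity) (by norm_num), mul_assoc]
      apply mul_le_mul_of_nonneg_left _ hε'.le
      linarith [hRp n _ (hy n), hRp N _ (hy N)]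
    have a6 := mul_le_mul_of_nonneg_left (show (‖y n‖ ^ p + ‖y N‖ ^ p) / 2 -
      ‖(1 / 2 : ℝ) • (y n + y N)‖ ^ p ≤ (⨆ i, d i) + 1 / ((N : ℝ) + 1) - d N by
        linarith [hy' n, hy' N]) hC
    linarith
  obtain ⟨a, ha⟩ := cauchySeq_tendsto_of_complete this
  exact ⟨y, a, hy, ha⟩

lemma rigid {E : Type} [NormedAddCommGroup E] [NormedSpace ℝ E] [CompleteSpace E] {p : ℝ}
    (hp : 0 < p) (hU : UC E p) : Rigid E := by
  intro A hA hb hc hμ
  letI : MeasurableSpace A := borel A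
  haveI : BorelSpace A := ⟨rfl⟩
  rw [isCompact_iff_isSeqCompact]
  intro x hx
  set F : ℕ → Set A := fun N => Subtype.val ⁻¹' closure (x '' Ici N) with hF
  have Fc : ∀ N, IsClosed (F N) := fun N => isClosed_closure.preimage continuous_subtype_val
  have hsub : ∀ N, convexHull ℝ (x '' Ici N) ⊆ A := fun N =>
    convexHull_min (by rintro _ ⟨n, -, rfl⟩; exact hx n) hc
  obtain ⟨y, a, hy, ha⟩ := mazur hp hU (fun N => convexHull ℝ (x '' Ici N))
    (fun i j h => convexHull_mono (image_mono (Ici_subset_Ici.2 h)))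
    (fun _ => convex_convexHull _ _) (fun N => ⟨x N, subset_convexHull _ _ ⟨N, self_mem_Ici, rfl⟩⟩)
    (hb.subset (hsub 0))
  have rep : ∀ N, ∀ z ∈ convexHull ℝ (x '' Ici N), ∃ μ : Measure A, IsProbabilityMeasure μ ∧
      μ (F N) = 1 ∧ Integrable (fun w : A => (w : E)) μ ∧ ∫ w, (w : E) ∂μ = z := by
    intro N
    refine convexHull_min (s := x '' Ici N) (t := {z | ∃ μ : Measure A, IsProbabilityMeasure μ ∧
      μ (F N) = 1 ∧ Integrable (fun w : A => (w : E)) μ ∧ ∫ w, (w : E) ∂μ = z}) ?_ ?_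
    · rintro _ ⟨n, hn, rfl⟩
      exact ⟨Measure.dirac ⟨x n, hx n⟩, inferInstance,
        Measure.dirac_apply_of_mem (subset_closure ⟨n, hn, rfl⟩), integrable_dirac (by simp),
        integral_dirac _ _⟩
    · rintro _ ⟨μ, p1, p2, p3, rfl⟩ _ ⟨ν, q1, q2, q3, rfl⟩ s t hs ht hst
      have e : ENNReal.ofReal s + ENNReal.ofReal t = 1 := by
        rw [← ENNReal.ofReal_add hs ht, hst, ENNReal.ofReal_one]
      have i1 := p3.smul_measure (c := ENNReal.ofReal s) ENNReal.ofReal_ne_top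
      have i2 := q3.smul_measure (c := ENNReal.ofReal t) ENNReal.ofReal_ne_top
      refine ⟨ENNReal.ofReal s • μ + ENNReal.ofReal t • ν, ⟨by simp [e]⟩, by simp [p2, q2, e],
        i1.add_measure i2, ?_⟩
      rw [integral_add_measure i1 i2, integral_smul_measure, integral_smul_measure,
        ENNReal.toReal_ofReal hs, ENNReal.toReal_ofReal ht]
  choose μ h1 h2 h3 h4 using fun N => rep N _ (hy N)
  have hK := hμ (insert a (range y)) (by
    rintro _ (rfl | ⟨n, rfl⟩)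
    exacts [hA.mem_of_tendsto ha (Eventually.of_forall fun n => hsub n (hy n)), hsub n (hy n)])
    ha.isCompact_insert_range
  set P : ℕ → ProbabilityMeasure A := fun N => ⟨μ N, h1 N⟩ with hP
  obtain ⟨ν, -, hν⟩ := isCompact_iff_ultrafilter_le_nhds.1 hK ((hyperfilter ℕ).map P) (by
    rw [Ultrafilter.coe_map, le_principal_iff, mem_map]
    exact Eventually.of_forall fun N => Or.inr ⟨N, (h4 N).symm⟩)
  have full : ∀ N, ∀ᵐ w ∂(ν : Measure A), w ∈ F N := by
    intro N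
    have l := ProbabilityMeasure.limsup_measure_closed_le_of_tendsto hν (Fc N)
    have e : ∀ᶠ n in (hyperfilter ℕ : Filter ℕ), (P n : Measure A) (F N) = 1 := by
      refine Eventually.filter_mono Nat.hyperfilter_le_atTop ?_
      filter_upwards [eventually_ge_atTop N] with n hn
      refine le_antisymm prob_le_one ((h2 n).ge.trans (measure_mono ?_))
      exact preimage_mono (closure_mono (image_mono (Ici_subset_Ici.2 hn)))
    rw [limsup_congr e, limsup_const] at l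
    exact (mem_ae_iff_prob_eq_one (Fc N).measurableSet).2 (le_antisymm prob_le_one l)
  obtain ⟨w, hw⟩ := (ae_all_iff.2 full).exists
  have : MapClusterPt (w : E) atTop x := by
    rw [mapClusterPt_iff_frequently]
    intro s hs
    rw [frequently_atTop]
    intro N
    obtain ⟨_, h, n, hn, rfl⟩ := mem_closure_iff_nhds.1 (hw N) s hs
    exact ⟨n, hn, h⟩
  obtain ⟨φ, hφ, ht⟩ := this.tendsto_subseq
  exact ⟨w, w.2, φ, hφ, ht⟩

theorem result (p : ℝ≥0∞) [Fact (1 ≤ p)] (h1 : 1 < p) (h2 : p ≠ ⊤) :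
    Rigid (lp (fun _ : ℕ => ℝ) p) ∧ Rigid (Lp ℝ p (volume.restrict (Icc (0 : ℝ) 1))) := by
  have h : 1 < p.toReal := by
    simpa using (ENNReal.toReal_lt_toReal ENNReal.one_ne_top h2).2 h1
  exact ⟨rigid (by linarith) (uc_lp p h), rigid (by linarith) (uc_Lp p h h2 _)⟩

end Pool.Agent.Results.MP_5b7a98_an.Compact
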